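import Pool.Agent.R268.Gur.Basis

/-!
# A Gurarii space of density `ℵ₁` with a monotone transfinite Schauder basis

Answer to Q1 of MP_63eeb0_an: yes.  The space is a closed subspace `X` of the bounded real
functions on `ω₁`.  Fix a family of finitely supported functionals `T γ` on `ω₁`, each of
`ℓ₁`-norm at most one, supported below `γ`, such that every rational such functional occurs
uncountably often.  A bounded function has a defect at `γ` when its value at `γ` is not the
value prescribed by `T γ`; `X` is the closure of the functions with finitely many defects.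
Restricting to an initial segment and re-extending by the prescription is a contraction, and
this gives the monotone transfinite basis.  The Gurarii property follows by filling in new
coordinates at positions `γ` whose prescription agrees, on a given finite-dimensional
subspace, with a given functional up to a small error.
-/

open Cardinal Ordinal

namespace Pool.Agent.Results.MP_63eeb0_an.GurariiMonotoneBasis

/-- `X` has density `ℵ₁`: there is a dense set of cardinality `ℵ₁`, and every dense set has
cardinality at least `ℵ₁`. -/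
def DensityAlephOne (X : Type) [TopologicalSpace X] : Prop :=
  (∃ D : Set X, Dense D ∧ #D = ℵ₁) ∧ ∀ D : Set X, Dense D → ℵ₁ ≤ #D

/-- `X` is a Gurarii space: for all `ε > 0`, all finite-dimensional `E ⊆ F` and every isometric
embedding `e : E → X` there is an `ε`-isometric embedding `f : F → X` with `‖f|E - e‖ ≤ ε`. -/
def IsGurarii (X : Type) [NormedAddCommGroup X] [NormedSpace ℝ X] : Prop :=
  ∀ ε : ℝ, 0 < ε → ∀ (F : Type) [NormedAddCommGroup F] [NormedSpace ℝ F]
    [FiniteDimensional ℝ F] (E : Submodule ℝ F) (e : E →ₗᵢ[ℝ] X),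
    ∃ f : F →ₗ[ℝ] X, (∀ y : F, (1 + ε)⁻¹ * ‖y‖ ≤ ‖f y‖ ∧ ‖f y‖ ≤ (1 + ε) * ‖y‖) ∧
      ∀ a : E, ‖f a - e a‖ ≤ ε * ‖a‖

/-- `(e α)_{α < lam}` is a monotone transfinite Schauder basis of `X` of length `lam`, with
projections `P β` for `β ≤ lam` (the values of `e` and `P` outside these ranges are
irrelevant). -/
structure IsMonotoneTransfiniteBasis (X : Type) [NormedAddCommGroup X] [NormedSpace ℝ X]
    (lam : Ordinal.{0}) (e : Ordinal.{0} → X) (P : Ordinal.{0} → X →L[ℝ] X) : Prop where
  ne_zero : ∀ α < lam, e α ≠ 0
  dense_span : Dense ((Submodule.span ℝ (e '' Set.Iio lam) : Submodule ℝ X) : Set X)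
  projection : ∀ β ≤ lam, ∀ x, P β (P β x) = P β x
  apply_of_lt : ∀ β ≤ lam, ∀ α < lam, α < β → P β (e α) = e α
  apply_of_le : ∀ β ≤ lam, ∀ α < lam, β ≤ α → P β (e α) = 0
  last : P lam = ContinuousLinearMap.id ℝ X
  continuity : ∀ x, ContinuousOn (fun β => P β x) (Set.Iic lam)
  monotone : ∀ β ≤ lam, ‖P β‖ ≤ 1

/-- There is a Gurarii space of density `ℵ₁` with a monotone transfinite Schauder basis (of
length `ω₁`). -/
theorem result : ∃ (X : Type) (_ : NormedAddCommGroup X) (_ : NormedSpace ℝ X)
    (_ : CompleteSpace X), DensityAlephOne X ∧ IsGurarii X ∧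
      ∃ (e : Ordinal.{0} → X) (P : Ordinal.{0} → X →L[ℝ] X),
        IsMonotoneTransfiniteBasis X (Cardinal.aleph 1).ord e P := by
  obtain ⟨B, hB⟩ := R268.Gur.exists_rich
  haveI : CompleteSpace (R268.Gur.XS B) :=
    (Submodule.isClosed_topologicalClosure (R268.Gur.V0 B)).completeSpace_coe
  refine ⟨R268.Gur.XS B, inferInstance, inferInstance, inferInstance, ⟨?_, ?_⟩, ?_, ?_⟩
  · exact ⟨_, R268.Gur.dense_ratComb B, R268.Gur.mk_range_ratComb B⟩
  · intro D hD
    exact R268.Gur.mk_le_of_dense B hD
  · intro ε hε F _ _ _ E e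
    obtain ⟨f, h1, h2⟩ := R268.Gur.gurarii_aux B hB E e (ε := min ε 1) (lt_min hε one_pos)
      (min_le_right _ _)
    have hm : min ε 1 ≤ ε := min_le_left _ _
    have hm0 : 0 < min ε 1 := lt_min hε one_pos
    refine ⟨f, fun y => ⟨?_, ?_⟩, fun a => ?_⟩
    · refine le_trans ?_ (h1 y).1
      apply mul_le_mul_of_nonneg_right _ (norm_nonneg _)
      apply inv_anti₀ (by positivity)
      linarith
    · refine (h1 y).2.trans ?_
      apply mul_le_mul_of_nonneg_right _ (norm_nonneg _)
      linarith
    · exact (h2 a).trans (mul_le_mul_of_nonneg_right hm (norm_nonneg _))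
  · refine ⟨R268.Gur.bas B, R268.Gur.pro B, ?_⟩
    constructor
    · intro α hα
      rw [R268.Gur.bas_of_lt B hα]
      exact R268.Gur.vecX_ne_zero B _
    · exact R268.Gur.bas_span B
    · intro β _ x
      have := congrArg (fun L => L x) (R268.Gur.pro_comp B β)
      exact this
    · intro β _ α hα hαβ
      rw [R268.Gur.bas_of_lt B hα]
      apply R268.Gur.PL_vecX_mem
      change R268.Gur.rk _ < β
      rw [R268.Gur.rk_mk hα]
      exact hαβ
    · intro β _ α hα hαβ
      rw [R268.Gur.bas_of_lt B hα]
      apply R268.Gur.PL_vecX_notMem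
      change ¬ R268.Gur.rk _ < β
      rw [R268.Gur.rk_mk hα]
      exact not_lt.2 hαβ
    · exact R268.Gur.pro_last B
    · intro x
      exact (R268.Gur.continuous_pro B x).continuousOn
    · intro β _
      apply ContinuousLinearMap.opNorm_le_bound _ zero_le_one
      intro x
      rw [one_mul]
      exact R268.Gur.norm_pro_apply_le B β x

end Pool.Agent.Results.MP_63eeb0_an.GurariiMonotoneBasis
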